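import Mathlib
import Pool.Agent.H704Z.Homot.Defs
import Pool.Agent.H704Z.Homot.Kripke
import Pool.Agent.H704Z.Homot.Sem

set_option autoImplicit false

namespace Pool.Agent.Results.MP_57cfa6_lc.AWeakEM

open Pool.Agent.H704Z.Homot

/-- The homotopical semantics is not complete for intuitionistic logic: the sentence
`∀ x y, ¬ x = y ∨ ¬ ¬ x = y` over the signature with one sort and no function symbols has a
non-empty interpretation in every structure in Kan complexes, and it is not intuitionistically
provable. -/
theorem result : (∀ M : KanStr oneSort, M.IsTrue weakEM) ∧ ¬ Provable weakEM :=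
  ⟨weakEM_true, Kripke.weakEM_not_provable⟩

end Pool.Agent.Results.MP_57cfa6_lc.AWeakEM
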